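import Pool.Agent.U231.FR.Va

/-!
# Parshin's conjecture in each weight for products with varieties of Fermat type

Let `κ` be a finite field with `q` elements, of characteristic `p`, and `𝒱` a class of smooth projective
varieties over `κ`, closed under products, with Chow groups `A` with rational coefficients and a Weil
cohomology theory `H` (framework of helper492 and helper484: `TheoryData`, `IsChow`, `IsWeil`). Let `X_i` be
varieties in `𝒱` **of Fermat type** of different prime degrees `N_i` and of lengths at most `s_i`
(`IsFermatType`): the cohomology of `X_i` is generated by the classes of cycles and a subspace `T_i`, stable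
under the Frobenius, such that each eigenvalue of the Frobenius on `T_i` is, up to a root of unity and a
power of `q`, a product `∏_{a ∈ A} g(θ ^ a)` of at most `s_i` Gauss sums over `κ`, where `θ` is a
multiplicative character of `κ` of order `N_i`, and where the multiset `A + p A + ⋯ + p ^ (f - 1) A`, `f` the
order of `p` modulo `N_i`, is not symmetric, i.e. not invariant under `a ↦ -a`.

By the theorem of Weil the diagonal hypersurfaces `∑ c_j x_j ^ N = 0` of dimension `n` over `κ` (for
`q ≡ 1` modulo `N`) and their powers and products are of this form with `s = n + 2` (for products: the sum
of these numbers), if the classes with symmetric `A + p A + ⋯` are algebraic. For `p ≡ 1` modulo `N` the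
condition on the multiset is that `A` is not symmetric, and **the algebraicity for symmetric `A` is known**
for `c_j = 1`, and in general after a finite extension of `κ` (linear subspaces, Ran, Shioda and Katsura).

Let `U` be **any** separated scheme of finite type over `κ`, and `Z` **any** variety in `𝒱`. Fix an integer
`m > 0`. For `X` in `𝒱` let `T^n(X) = H^{2n-m}(X × U, ℚ(n))`; for `U` a point these are the groups
`H^i(X, ℚ(n)) = CH^n(X, m) ⊗ ℚ`, `i = 2 n - m`, of the question. (For a general scheme `U` one can take the
motivic cohomology with compact supports; `P^n` is equivalent to its vanishing.) On `T` act the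
correspondences between the varieties in `𝒱`, the Frobenius endomorphism `φ` of `U` commutes with the
correspondences, and the Frobenius endomorphism of `X × U` is `q ^ n` on `T^n(X)` (`IsCycleTheory`); only
such properties are used. Let `χ` be a polynomial with rational coefficients, `χ (0) ≠ 0`, with
`χ (φ) = 0` (for `U` a point `χ = x - 1`; for general `U` it exists if the motive of `U` is
finite-dimensional, and its roots are Frobenius eigenvalues of `U`), let `B` be the set of the products
`β` of an eigenvalue of Frobenius on `H(Z)` and of a complex root of `χ`, and suppose that the `β` are
algebraic (theorem of Deligne). Let `f_i` be the order of `p` modulo `N_i`. Suppose that for all `β` in `B` and all `i` there is an `m > 0` such that (`IsSmallBase`)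

* the field `F = ℚ(β ^ m) ∩ ℚ(ζ_{N_i})`, `ζ_N` a root of unity of order `N`, is real (equivalently
  `(N_i - 1) / [F : ℚ]` is even); for instance `N_i` is odd and unramified in the field `ℚ(β ^ m)`;
* or `N_i > s_i f_i [F : ℚ] + 1`; or `N_i = 2`.

**So the theorem applies to all prime numbers `N_i` with finitely many exceptions, which depend only on
the fields `ℚ(β)`. For the other primes there is no condition at all on the `X_i`: they may be of any
dimension and products of any number of factors, and `s_i` and `f_i` are arbitrary.** Finally suppose that
homologically trivial self-correspondences of degree zero of the products `V` are nilpotent. This is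
known for example if `Z` is dominated by a product of curves and the `X_i` are diagonal hypersurfaces
(Kimura; Shioda and Katsura).

**Theorem.** Let `V` be the product of `Z` and of finitely many pairwise different `X_i`, and
`v = dim V - dim Z`.
* For every `n`: `H^{2n-m}(V × U, ℚ(n)) = 0` **if and only if** `H^{2l-m}(Z × U, ℚ(l)) = 0` for all `l` with
  `n - v ≤ l ≤ n`. So for every `n` the statement of `P^n` holds for `V` if and only if the statements of
  `P^l` with `n - v ≤ l ≤ n` hold for `Z`, and the conjecture of Parshin for `V` is equivalent to the one for
  `Z`. No case of the Tate conjecture is assumed.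
* If `V = X_i × V'`, then there are finitely many algebraic cycles `D j` on `X_i` with
  `H^{2n-m}(V × U, ℚ(n)) = ⨁ D j × H^{2l-m}(V' × U, ℚ(l))`, `l = n - deg D j`, for all `n`.

For instance `Z` may be an arbitrary product of curves, or an abelian variety. The earlier result for
this problem is about products with abelian varieties; the varieties of Fermat type are of a different
kind: the primitive part of the cohomology of a diagonal hypersurface of prime degree decomposes in
many pieces with coefficients in cyclotomic fields, among them pieces of very small level.

The proof. Let `α_i` be eigenvalues of the Frobenius on the `T_i`, for `i` in a nonempty set `I`, and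
suppose that `β ∏ α_i` is a power of `q` up to a root of unity. By the theorem of Stickelberger for the
conjugates of Gauss sums the function `t ↦ ∑_{x ∈ A + p A + ⋯} saw(t x)` on `(ℤ/N_i)ˣ` is invariant
under the subgroup with the fixed field `F`. The values `L(1, χ)` are not zero, so the
sawtooth functions `t ↦ saw(t x)` are independent up to the sign of `x`, and the odd part of the
multiplicity function of `A + p A + ⋯` is invariant under this subgroup and not zero. So `-1` is not
in the subgroup (`F` is not real), and the support of `A + p A + ⋯` contains a coset of it: at least
`(N_i - 1) / [F : ℚ]` elements, but at most `s_i f_i`, a contradiction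
(`U231/FF`, as in my hand-ins `FermatFactors` for other conjectures, see the claim file).
The Künneth formula then follows by projectors in the ring generated by the Frobenius and the
algebraic cycles (helper876, `N876/CG`).

helper231 (`Pool/Agent/U231/FF`, `U231/FR`); the part on theories with correspondences is the library of
helper876 (`N876/CG`; the criterion `vanish_deg` was not used in a hand-in), built on helpers 484, 492, 550.
-/

set_option autoImplicit false

open Polynomial CategoryTheory AlgebraicGeometry

namespace Pool.Agent.Results.MP_de59b4_ag.FermatFactors

open Pool.Agent.H914 Pool.Agent.H914.VarClass Pool.Agent.H914.VarClass.Obj Pool.Agent.W492.BB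
  Pool.Agent.W484.CK Pool.Agent.U231.FF Pool.Agent.U231.FR.Base Pool.Agent.U231.FR.Va

/-- **Parshin's conjecture in each weight for products of arbitrary schemes with varieties of Fermat
type of different prime degrees.** -/
theorem result (p : ℕ) [Fact p.Prime] (κ : Type) [Field κ] [Fintype κ] [CharP κ p] {ι : Type}
    (N s : ι → ℕ) {𝒱 : VarClass κ} (A : TheoryData.{0, 0, 0} 𝒱 ℚ) [IsChow A] {K : Type} [Field K]
    [IsAlgClosed K] [CharZero K] (H : WeilTheoryData.{0, 0, 0} A K) [IsWeil H] (τ : K →+* ℂ)
    (F : ∀ X : 𝒱.Obj, X ⟶ X) (X : ι → 𝒱.Obj) (Z : 𝒱.Obj) (χ : ℚ[X])
    (h : IsFermatSystem p N s H τ F X Z χ) (hnil : ∀ L, Nilpotence H (productOf X Z L))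
    (T : MotivicData A) (φ : ∀ X, T.M X →ₗ[ℚ] T.M X)
    (hT : IsCycleTheory T φ F (Fintype.card κ)) (hT0 : IsRoot T φ χ) :
    (∀ L : List ι, L.Nodup → Conclusions X Z T L) ∧
    -- the degree in the condition on `Z` and `U` is at most the degree of `β`
    (∀ (n : ℕ) (β : ℂ), IsAlgebraic ℚ β → commonDegree n β ≤ (minpoly ℚ β).natDegree) :=
  ⟨fun L hL => main p κ N s A H τ F X Z χ h hnil T φ hT hT0 L hL,
    fun _ _ hβ => commonDegree_le hβ⟩

end Pool.Agent.Results.MP_de59b4_ag.FermatFactors
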