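import Pool.Agent.U173.PS.Va

/-!
# Parshin's conjecture in each weight for products of varieties whose slope fields meet pairwise in
# totally real fields

Let `𝒱` be a class of smooth projective varieties over the field `κ` with `q = p ^ m` elements, closed under
products, with Chow groups `A` with rational coefficients and a Weil cohomology theory `H` with an
algebraically closed field `C` of coefficients (framework of the starting library: `TheoryData`, `IsChow`,
`IsWeil`), and fix a place `ι` above `p` of the field `ℚ̄` of algebraic numbers. A *slope field* of an
algebraic number `ν` is a subfield `L` of `ℚ̄` such that the automorphisms of `ℚ̄` over `L` do not change the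
absolute values at `ι` of the conjugates of `ν` (`HasSlopesIn`); a slope field of a variety is a slope field of
its Frobenius eigenvalues. (For example the reflex field of the CM type given by the slopes, for an
ordinary abelian variety and all its powers; in general the field of definition of the slope cocharacter of
the Frobenius torus, which is totally real or a CM field.)

Let `E` be a totally real field and let `X i` be varieties such that the cohomology of `X i` is generated
by the classes of cycles and a Frobenius-stable subspace on which all eigenvalues are Weil numbers with
slope field `L i`, and not supersingular (`IsGoodAlgebra`: **this is the Tate conjecture for `X i` with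
semisimplicity**, if there are no supersingular eigenvalues in odd degrees). We suppose that the fields
`L i` contain `E`, are normal over `E` with at most one exception, and meet **pairwise** in totally real
fields (`ArePairwise`). Let `Z` be **any** variety in `𝒱` with a slope field `M` which contains `E` and meets
each `L i` in a totally real field (`IsSlopeFamily`). Nothing is assumed on the composita of the fields, on
the size of the Betti numbers, or on the relations between the eigenvalues of one `X i`.

Let `U` be **any** scheme of finite type over `κ` (for example a point), fix an integer `r`, and let
`T^n(X) = H^{2n-r}(X × U, ℚ(n))` for `X` in `𝒱` (for singular `U` the groups `CH^n(X × U, r) ⊗ ℚ`); on `T` act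
the correspondences between the varieties in `𝒱` and the Frobenius endomorphism `φ` of `U`, and the
Frobenius endomorphism of `X × U` is `q ^ n` on `T^n(X)` (`IsCycleTheory`; only such properties are used).
Let `χ` be a rational polynomial, `χ (0) ≠ 0`, with `χ (φ) = 0` on the `T^n(X)`, whose roots have the slope
field `M` (if `U` is a point, `χ = t - 1`; this holds if the motive with compact supports of `U` is
finite-dimensional). Suppose that homologically trivial self-correspondences of degree zero of the products
are nilpotent (known if `Z` and the `X i` are dominated by products of curves; Kimura, O'Sullivan).

**Theorem.** Let `V` be the product of `Z` and of finitely many pairwise different `X i`, and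
`v = dim V - dim Z`.
* For every `n`: `H^{2n-r}(V × U, ℚ(n)) = 0` **if and only if** `H^{2l-r}(Z × U, ℚ(l)) = 0` for all `l` with
  `n - v ≤ l ≤ n`. So the statement of `P^n` holds for `V` if and only if the statements of `P^l` with
  `n - v ≤ l ≤ n` hold for `Z`, and the conjecture of Parshin for `V` is equivalent to the one for `Z`. No
  case of the Tate conjecture is assumed for `Z`.
* If `V = X i × V'`, then there are finitely many algebraic cycles `D j` on `X i` with
  `H^{2n-r}(V × U, ℚ(n)) = ⨁ D j × H^{2l-r}(V' × U, ℚ(l))`, `l = n - deg D j`, for all `n`.

For example, `X i` can be a product of varieties of Fermat type of degree `N_i` (or of abelian varieties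
with complex multiplication by the field of the `N_i`-th roots of unity), with Tate conjecture, of any
dimensions, for pairwise coprime numbers `N_i`: a slope field is the decomposition field of `p` in the field
of the `N_i`-th roots of unity. More generally it is enough that `-1` is a power of `p` modulo the greatest
common divisor of `N_i` and `N_j`, for `i ≠ j`.

The proof. Let `α i` be Frobenius eigenvalues on the second parts of the `H(X i)`, for `i` in a nonempty
finite set, and `β` a product of an eigenvalue on `H(Z)` and of a root of `χ`, such that `β ∏ α i` is a power
of `p` up to a root of unity. The functions `2 log |g α i| - const` on the Galois group are odd under the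
complex conjugation and invariant under `H i = Gal(ℚ̄ / L i)`, their sum is invariant under `Gal(ℚ̄ / M)`.
The average over `H i` is central for `L i` normal over `E`, so it kills the other functions (the groups
`H i` and `H j` generate a group which contains the complex conjugation). So each of these functions is
invariant under `H i` and `Gal(ℚ̄ / M)`, hence zero, and `α i` is supersingular, a contradiction
(`U173/SL/Pair`). The Künneth formula then follows by projectors in the ring generated by the
Frobenius and the algebraic cycles (helper876, `N876/CG`; definitions and bridges of helper231, `U231/FR`).
-/

set_option autoImplicit false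

open Polynomial CategoryTheory AlgebraicGeometry

namespace Pool.Agent.Results.MP_de59b4_ag.PairwiseSlopeFields

open Pool.Agent.H914 Pool.Agent.H914.VarClass Pool.Agent.H914.VarClass.Obj Pool.Agent.W492.BB
  Pool.Agent.W484.CK Pool.Agent.U173.PS
  Pool.Agent.U231.FR.Base Pool.Agent.U231.FR.Va

/-- **Parshin's conjecture in each weight for products of arbitrary schemes with varieties whose slope fields
meet pairwise in totally real fields.** -/
theorem result {κ : Type} [Field κ] {𝒱 : VarClass κ} (A : TheoryData.{0, 0, 0} 𝒱 ℚ) [IsChow A]
    {C : Type} [Field C] [IsAlgClosed C] [CharZero C] (H : WeilTheoryData.{0, 0, 0} A C) [IsWeil H]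
    {I : Type} (p m : ℕ) [Fact p.Prime] (ι : AlgebraicClosure ℚ →+* PadicAlgCl p)
    (E M : IntermediateField ℚ (AlgebraicClosure ℚ))
    (L : I → IntermediateField ℚ (AlgebraicClosure ℚ)) (F : ∀ X : 𝒱.Obj, X ⟶ X) (X : I → 𝒱.Obj)
    (Z : 𝒱.Obj) (h : IsSlopeFamily p m ι E M L H F X Z) (χ : ℚ[X]) (hχ0 : χ.coeff 0 ≠ 0)
    (hχ : ∀ ρ : C, aeval ρ χ = 0 → HasSlopesIn p ι M ρ)
    (hnil : ∀ l : List I, Nilpotence H (productOf X Z l)) (T : MotivicData A)
    (φ : ∀ X, T.M X →ₗ[ℚ] T.M X) (hT : IsCycleTheory T φ F (p ^ m)) (hT0 : IsRoot T φ χ)
    (l : List I) (hl : l.Nodup) : Conclusions X Z T l :=
  va_main h hχ0 hχ hnil T φ hT hT0 l hl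

end Pool.Agent.Results.MP_de59b4_ag.PairwiseSlopeFields
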