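import Pool.Agent.U586.MU.GenMain
import Pool.Agent.Y116.UV.Pres

/-!
# MP_de59b4_ag: Parshin's conjecture and realization spaces of line arrangements over prime fields

For a separated scheme `X` of finite type over the field with `p` elements let
`H i n X = H^i_c(X, ℚ(n))` be the rational motivic cohomology with compact support. The statement `P^n` for
all fields of characteristic `p` is equivalent to `H^i_c(X, ℚ(n)) = 0` for all these `X` and all `i < 2n`.
The theorem: for every single pair `(i, n)` and every dimension `d` separately, `H^i_c(X, ℚ(n)) = 0` for all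
`X` of dimension at most `d` if and only if this is true for the integral affine smooth realization spaces
of line arrangements (of matroids of rank 3) over the prime field of dimension at most `d`, and if and only
if it is true for the integral affine smooth schemes of solutions of unit equations of dimension at most
`d`.
-/

set_option autoImplicit false

open CategoryTheory AlgebraicGeometry MvPolynomial Pool.Agent.Y116.UV Pool.Agent.U586.MU

universe w

namespace Pool.Agent.Results.MP_de59b4_ag.RealizationSpaces

variable {p : ℕ}

/-- `X` is the realization space over `F_p` of a configuration type: the scheme of the configurations of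
points `e ∈ E` of the projective plane, in the coordinates given by a projective frame, for which exactly
the triples in a given set are collinear. -/
def IsRealizationSpace (X : Sch (ZMod p)) : Prop :=
  ∃ (E : Type) (_ : Fintype E) (π : Cfg E), X = π.space (ZMod p)

/-- `X` is the scheme over `F_p` of the families of units `x_i, y_i`, `i ∈ I`, with `x_i + y_i = 1` which
satisfy given signed binomial equations `∏ u_v ^ p_v = ± ∏ u_v ^ q_v`. -/
def IsUnitScheme (X : Sch (ZMod p)) : Prop :=
  ∃ (I : Type) (_ : Fintype I) (S : Set (SBin (I ⊕ I))), X = uspace (ZMod p) S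

/-- The used properties of the groups `H i n X = H^i_c(X, ℚ(n))`: invariance under isomorphisms, and
exactness of `H^i_c(U, ℚ(n)) → H^i_c(X, ℚ(n)) → H^i_c(Z, ℚ(n))` for a closed subscheme `Z` of `X` and its
complement `U`. -/
structure IsCompactSupport (H : ℤ → ℤ → Sch (ZMod p) → Type w) [∀ i n X, AddCommGroup (H i n X)] :
    Prop where
  iso : ∀ {X Y : Sch (ZMod p)}, FT True X → Nonempty (X ≅ Y) → ∀ i n, Nonempty (H i n X ≃+ H i n Y)
  localization : ∀ {Z X U : Sch (ZMod p)} (a : Z ⟶ X) (b : U ⟶ X), FT True X → IsTriple a b →
    ∀ i n, ∃ (f : H i n U →+ H i n X) (g : H i n X →+ H i n Z), ∀ x, g x = 0 ↔ ∃ y, f y = x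

/-- The schemes in the class `K` which are empty, or integral with the property `Sm`. -/
def Nice (K Sm : Sch (ZMod p) → Prop) (X : Sch (ZMod p)) : Prop := K X ∧ Good Sm X

lemma ext_vanish {H : ℤ → ℤ → Sch (ZMod p) → Type w} [∀ i n X, AddCommGroup (H i n X)]
    (hH : IsCompactSupport H) (i n : ℤ) : Ext True fun X => Subsingleton (H i n X) where
  iso hX e h := by
    obtain ⟨e⟩ := hH.iso hX e i n
    exact e.symm.toEquiv.subsingleton
  total a b hX ht hZ hU := by
    obtain ⟨f, g, h⟩ := hH.localization a b hX ht i n
    have h0 : ∀ x : H i n _, x = 0 := fun x => by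
      obtain ⟨y, rfl⟩ := (h x).mp (Subsingleton.elim _ _)
      rw [Subsingleton.elim y 0, map_zero]
    exact ⟨fun x y => by rw [h0 x, h0 y]⟩

/-- **Theorem.** Let `p` be a prime number. The class of the schemes of dimension at most `d` is
hereditary, and smoothness over `F_p` is a generic property. Let `H i n X` be groups with the used
properties of the groups `H^i_c(X, ℚ(n))`, let `K` be a hereditary class of schemes over `F_p`, `Sm` a
generic property, `i` and `n` integers. The following are equivalent:
(1) `H i n X = 0` for all separated schemes `X` of finite type over `F_p` in `K`;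
(2) `H i n X = 0` for the realization spaces in `K` which are empty or integral with the property `Sm`;
(3) `H i n X = 0` for the schemes of solutions of unit equations in `K` which are empty or integral with
the property `Sm`. -/
theorem result (p : ℕ) [Fact p.Prime] :
    (∀ d : WithBot ℕ∞, Hered True fun X : Sch (ZMod p) => topologicalKrullDim X.left ≤ d) ∧
    (Generic fun X : Sch (ZMod p) => Smooth X.hom) ∧
    ∀ (H : ℤ → ℤ → Sch (ZMod p) → Type w) [∀ i n X, AddCommGroup (H i n X)], IsCompactSupport H →
      ∀ K Sm : Sch (ZMod p) → Prop, Hered True K → Generic Sm → ∀ i n : ℤ, List.TFAE [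
        ∀ X : Sch (ZMod p), LocallyOfFiniteType X.hom → QuasiCompact X.hom → IsSeparated X.hom →
          K X → Subsingleton (H i n X),
        ∀ X : Sch (ZMod p), IsRealizationSpace X → Nice K Sm X → Subsingleton (H i n X),
        ∀ X : Sch (ZMod p), IsUnitScheme X → Nice K Sm X → Subsingleton (H i n X)] := by
  refine ⟨fun d => hered_dim True d, generic_perfect (ZMod p), fun H _ hH K Sm hK hSm i n => ?_⟩
  obtain ⟨h1, h2⟩ := three_gen (presents_zero_one (ZMod.intCast_surjective (n := p)))
    (ext_vanish hH i n) hK hSm
  tfae_have 1 → 2 := by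
    rintro h X ⟨E, _, π, rfl⟩ ⟨hKX, -⟩
    exact h _ (ft_aff True).1 (ft_aff True).2 ((ft_aff True).3 trivial) hKX
  tfae_have 1 → 3 := by
    rintro h X ⟨I, _, S, rfl⟩ ⟨hKX, -⟩
    exact h _ (ft_aff True).1 (ft_aff True).2 ((ft_aff True).3 trivial) hKX
  tfae_have 2 → 1 := fun h X a b c hKX =>
    h1.mpr (fun E _ π hKπ hg => h _ ⟨E, _, π, rfl⟩ ⟨hKπ, hg⟩) X ⟨a, b, fun _ => c⟩ hKX
  tfae_have 3 → 1 := fun h X a b c hKX =>
    h2.mpr (fun I _ S hKπ hg => h _ ⟨I, _, S, rfl⟩ ⟨hKπ, hg⟩) X ⟨a, b, fun _ => c⟩ hKX
  tfae_finish

end Pool.Agent.Results.MP_de59b4_ag.RealizationSpaces
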