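import Pool.Agent.U213.PA.Main

/-!
# Parshin's conjecture, three-term systems and trilinear hypersurfaces

Fix a prime `p`. A `System p` consists of the rational motivic cohomology with compact supports
`H^i_c(X, ℚ(n))`, the weight cohomology `W^i(X, n) = H^(i - 2n)(CH^n(W(X)))_ℚ` (`W(X)` is the weight complex of
Gillet and Soulé) and the edge maps `H^i_c(X, ℚ(n)) → W^i(X, n)`, for all finite fields `K` of
characteristic `p`, all separated schemes `X` of finite type over `K` and all `i, n : ℤ`; its fields are the
properties which are used. `C K` is the class of the smooth projective schemes over `K` (or any class with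
the properties `IsProjClass`); `Par n X` means `H^i(X, ℚ(n)) = 0` for all `i ≠ 2n`, so that `P^n` (for the
fields of characteristic `p`) is `Par n X` for all `X` in `C K` and all `K`.

1. For every single weight `n` the following are equivalent: `P^n`; the edge maps in the weight `n` are
  isomorphisms for all separated schemes of finite type; the edge maps in the weight `n` are isomorphisms
  for the affine schemes over the prime field given by systems of equations each of which is a sum of at
  most three monomials `x_i y_j`; the vanishing of `H^i_c(X, ℚ(n))`, `i < 2n`, for all separated schemes of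
  finite type (the last equivalence is known). Moreover `P^n` implies the vanishing of `H^i_c(Y, ℚ(n))`,
  `i < 2n`, for these systems `Y`, and it follows from the vanishing of `H^i_c(Y, ℚ(n + 2))`,
  `i < 2n + 4`, for them.
2. For every finite field `K` and every `d`: Parshin's conjecture in all weights for the smooth projective
  schemes over `K` of dimension at most `d`, isomorphisms for all edge maps of all separated schemes of
  finite type of dimension at most `d`, and isomorphisms for all edge maps of the smooth affine cubic
  hypersurfaces `F(x, y, z) = 1`, for all trilinear forms `F` over `K` in three blocks of variables one of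
  which has at most `d + 2` variables, are equivalent. So for all `F` with a block of at most three
  variables the edge maps of `F(x, y, z) = 1` are isomorphisms, and `H^i_c = 0` for `i < 2n`.
3. Parshin's conjecture for all weights and all finite fields of characteristic `p` is equivalent to
  isomorphisms for all edge maps of the smooth affine hypersurfaces `∑_{(i, j, k) ∈ E} x_i y_j z_k = 1` over
  the prime field, for all finite sets `E` of triples such that every variable `x_i` occurs in at most three
  monomials.

The geometric reductions of any property with closure properties to bilinear systems and trilinear forms are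
those of `Pool.Agent.Y116.UV`, `Pool.Agent.Z125.UN` and `Pool.Agent.Q282.UZ`. New here: the closure properties
of the comparison with weight cohomology (`Pool.Agent.U213.PA.Main`), in a fixed weight; the theorem on
properties closed under closed-open decompositions only (`Pool.Agent.U213.PA.Three`), which gives the shift by
two weights; the Noetherian induction with alterations (`Pool.Agent.U213.BP.NI`, `Alt`), and the sparse
hypersurfaces.
-/

set_option autoImplicit false

open CategoryTheory AlgebraicGeometry MvPolynomial Pool.Agent.Y116.UV Pool.Agent.U213.BP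
  Pool.Agent.U213.PA

namespace Pool.Agent.Results.MP_de59b4_ag.ThreeTermSystems

universe v

/-- `P^n` for the finite fields of characteristic `p`: `H^i(X, ℚ(n)) = 0` for all smooth projective `X` and
all `i ≠ 2n`. -/
def Parshin {p : ℕ} [Fact p.Prime] (S : System.{v} p)
    (C : ∀ (K : Type) [Field K] [Finite K] [Algebra (ZMod p) K], Sch K → Prop) (n : ℤ) : Prop :=
  ∀ (K : Type) [Field K] [Finite K] [Algebra (ZMod p) K] (X : Sch K), C K X → (S.W K).Par n X

theorem result (p : ℕ) [Fact p.Prime] (S : System.{v} p)
    (C : ∀ (K : Type) [Field K] [Finite K] [Algebra (ZMod p) K], Sch K → Prop)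
    (hC : ∀ (K : Type) [Field K] [Finite K] [Algebra (ZMod p) K],
      Pool.Agent.U213.PA.IsProjClass (S.W K) (C K)) :
    -- a fixed weight
    (∀ n : ℤ, (Parshin S C n ↔ S.All n) ∧ (Parshin S C n ↔ S.Sys n) ∧ (Parshin S C n ↔ S.AllVan n) ∧
      (Parshin S C n → S.SysVan n) ∧ (S.SysVan (n + 2) → Parshin S C n)) ∧
    -- dimension at most `d` and forms with a block of at most `d + 2` variables
    (∀ (K : Type) [Field K] [Finite K] [Algebra (ZMod p) K],
      (∀ d : ℕ,
        ((∀ X : Sch K, C K X → topologicalKrullDim X.left ≤ d → ∀ n, (S.W K).Par n X) ↔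
          ∀ X : Sch K, FT True X → topologicalKrullDim X.left ≤ d → (S.W K).Ca X) ∧
        ((∀ X : Sch K, FT True X → topologicalKrullDim X.left ≤ d → (S.W K).Ca X) ↔
          (S.W K).CTri (d + 2))) ∧
      (S.W K).CTri 3 ∧
      ∀ (a b c : ℕ) (F : Fin a → Fin b → Fin c → K), (a ≤ 3 ∨ b ≤ 3 ∨ c ≤ 3) →
        ∀ n, (S.W K).Van n (hypS F)) ∧
    -- all weights
    ((∀ n, Parshin S C n) ↔ S.Hyps) := by
  have h1 : ∀ n : ℤ, Parshin S C n ↔ S.All n := fun n =>
    ⟨fun h K _ _ _ X hX => of_class (dev_w _ n) (alt_w _ (hC K) n)
        (fun Y hY => (par_iff _ (hC K) hY n).2 (h K Y hY)) X hX,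
      fun h K _ _ _ X hX => (par_iff _ (hC K) hX n).1 (h K X ((hC K).ft X hX))⟩
  have h2 : ∀ (K : Type) [Field K] [Finite K] [Algebra (ZMod p) K] (d : ℕ),
      (∀ X : Sch K, C K X → topologicalKrullDim X.left ≤ d → ∀ n, (S.W K).Par n X) ↔
        ∀ X : Sch K, FT True X → topologicalKrullDim X.left ≤ d → (S.W K).Ca X := fun K _ _ _ d =>
    ⟨fun h X hX hd => of_class_dim (dev _) (alt _ (hC K)) d
        (fun Y hY hYd n => (par_iff _ (hC K) hY n).2 (h Y hY hYd n)) X hX hd,
      fun h X hX hd n => (par_iff _ (hC K) hX n).1 (h X ((hC K).ft X hX) hd n)⟩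
  have h3 : ∀ (K : Type) [Field K] [Finite K] [Algebra (ZMod p) K], (S.W K).CTri 3 := fun K _ _ _ =>
    (dim_iff _ 1).1 ((h2 K 1).1 fun X hX hd => (hC K).curves X hX hd)
  have h4 : ∀ n : ℤ, Parshin S C n ↔ S.AllVan n := fun n =>
    ⟨fun h K _ _ _ X hX => van_of_cw _ hX ((h1 n).1 h K X hX),
      fun h K _ _ _ X hX => par_of_van _ (hC K) hX (h K X ((hC K).ft X hX))⟩
  refine ⟨fun n => ⟨h1 n, (h1 n).trans (all_iff S n), h4 n, fun h a b c E _ =>
      (h4 n).1 h (ZMod p) _ (ft_aff True), fun h => (h4 n).2 (allVan_of_sys S h)⟩,
    fun K _ _ _ => ⟨fun d => ⟨h2 K d, dim_iff _ d⟩, h3 K, fun a b c F hF n =>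
      van_of_cw _ (ft_aff True) (h3 K a b c F hF n)⟩, ?_⟩
  rw [← hyps_iff]
  exact forall_congr' h1

end Pool.Agent.Results.MP_de59b4_ag.ThreeTermSystems
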